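import Pool.Agent.helper50.PHN.Spec

set_option autoImplicit false

namespace Pool.Agent.PHN

open Finset

theorem C2I_ex (q : ℕ) (hq : q.Prime) (n : ℕ) (hn : n ≠ 0) (h : q ∣ n.totient) :
    ∃ p, p.Prime ∧ p ∣ n ∧ q ∣ (p ^ n.factorization p).totient := by
  rw [Nat.totient_eq_prod_factorization hn, Finsupp.prod] at h
  obtain ⟨p, hp, h1⟩ := (Prime.dvd_finsetProd_iff hq.prime _).1 h
  have hp' : p ∈ n.primeFactors := by rwa [Nat.support_factorization] at hp
  have hpp := Nat.prime_of_mem_primeFactors hp'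
  have hpd := Nat.dvd_of_mem_primeFactors hp'
  refine ⟨p, hpp, hpd, ?_⟩
  have hv : 0 < n.factorization p := hpp.factorization_pos_of_dvd hn hpd
  rw [Nat.totient_prime_pow hpp hv]
  exact h1

/-- Row C2I. -/
theorem C2I (hPPW : PPW_stmt) (hWOM : WOM_stmt) : C2I_stmt := by
  classical
  intro Y q F hY hq hF
  have ex : ∀ n ∈ F, ∃ p, p.Prime ∧ p ∣ n ∧ q ∣ (p ^ n.factorization p).totient := by
    intro n hn
    obtain ⟨h1, -, h3⟩ := hF n hn
    exact C2I_ex q hq n (by omega) h3
  choose! P hP1 hP2 hP3 using ex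
  let t : ℕ → ℕ := fun n => P n ^ n.factorization (P n)
  let m : ℕ → ℕ := fun n => n / P n ^ n.factorization (P n)
  have htm : ∀ n, t n * m n = n := fun n => Nat.ordProj_mul_ordCompl_eq_self n (P n)
  have hv : ∀ n ∈ F, n.factorization (P n) ≠ 0 := by
    intro n hn
    have h1 := (hF n hn).1
    exact ((hP1 n hn).factorization_pos_of_dvd (by omega) (hP2 n hn)).ne'
  have hcop : ∀ n ∈ F, (t n).Coprime (m n) := by
    intro n hn
    have h1 := (hF n hn).1
    exact (Nat.coprime_ordCompl (hP1 n hn) (by omega)).pow_left _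
  have htpos : ∀ n ∈ F, 0 < t n := fun n hn => pow_pos (hP1 n hn).pos _
  have hmpos : ∀ n ∈ F, 1 ≤ m n := by
    intro n hn
    have h1 := (hF n hn).1
    have h2 := htm n
    rcases Nat.eq_zero_or_pos (m n) with h | h
    · rw [h, mul_zero] at h2
      omega
    · exact h
  have hmle : ∀ n ∈ F, m n ≤ n := by
    intro n hn
    calc m n = 1 * m n := (one_mul _).symm
      _ ≤ t n * m n := Nat.mul_le_mul_right _ (htpos n hn)
      _ = n := htm n
  have htle : ∀ n ∈ F, t n ≤ n := by
    intro n hn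
    calc t n = t n * 1 := (mul_one _).symm
      _ ≤ t n * m n := Nat.mul_le_mul_left _ (hmpos n hn)
      _ = n := htm n
  let G : ℕ × ℕ → ℝ := fun x => (1 / (x.1.totient : ℝ)) * ((2 : ℝ) ^ x.2.primeFactors.card / x.2.totient)
  have hG0 : ∀ x, 0 ≤ G x := by
    intro x
    positivity
  have hf : ∀ n ∈ F, (2 : ℝ) ^ n.primeFactors.card / n.totient = 2 * G (t n, m n) := by
    intro n hn
    have h1 : n.totient = (t n).totient * (m n).totient := by
      rw [← Nat.totient_mul (hcop n hn), htm n]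
    have h2 : n.primeFactors.card = 1 + (m n).primeFactors.card := by
      have h3 : n.primeFactors = (t n).primeFactors ∪ (m n).primeFactors := by
        rw [← (hcop n hn).primeFactors_mul, htm n]
      rw [h3, Finset.card_union_of_disjoint (hcop n hn).disjoint_primeFactors]
      have h4 : (t n).primeFactors = {P n} := Nat.primeFactors_prime_pow (hv n hn) (hP1 n hn)
      rw [h4, Finset.card_singleton]
    rw [h1, h2, pow_add, pow_one]
    push_cast
    change 2 * (2 : ℝ) ^ (m n).primeFactors.card / (((t n).totient : ℝ) * (m n).totient) =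
      2 * ((1 / ((t n).totient : ℝ)) * ((2 : ℝ) ^ (m n).primeFactors.card / (m n).totient))
    have h5 : ((t n).totient : ℝ) ≠ 0 := by
      have := Nat.totient_pos.2 (htpos n hn)
      positivity
    have h6 : ((m n).totient : ℝ) ≠ 0 := by
      have := Nat.totient_pos.2 (hmpos n hn)
      positivity
    field_simp
  have hinj : Set.InjOn (fun n => (t n, m n)) (F : Set ℕ) := by
    intro a _ b _ hab
    have h1 : t a = t b := congrArg Prod.fst hab
    have h2 : m a = m b := congrArg Prod.snd hab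
    rw [← htm a, ← htm b, h1, h2]
  have hsum : ∑ n ∈ F, G (t n, m n) ≤ (∑ a ∈ F.image t, 1 / (a.totient : ℝ)) *
      ∑ b ∈ F.image m, (2 : ℝ) ^ b.primeFactors.card / b.totient := by
    rw [Finset.sum_mul_sum, ← Finset.sum_product']
    have h1 : ∑ n ∈ F, G (t n, m n) = ∑ x ∈ F.image (fun n => (t n, m n)), G x :=
      (Finset.sum_image hinj).symm
    rw [h1]
    refine Finset.sum_le_sum_of_subset_of_nonneg ?_ fun x _ _ => hG0 x
    intro x hx
    obtain ⟨n, hn, rfl⟩ := Finset.mem_image.1 hx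
    exact Finset.mem_product.2 ⟨Finset.mem_image_of_mem _ hn, Finset.mem_image_of_mem _ hn⟩
  have hA := hPPW Y q (F.image t) hY hq.one_lt.le (by
    intro a ha
    obtain ⟨n, hn, rfl⟩ := Finset.mem_image.1 ha
    refine ⟨(hP1 n hn).isPrimePow.pow (hv n hn), ?_, hP3 n hn⟩
    have h1 : ((t n : ℕ) : ℝ) ≤ (n : ℝ) := by exact_mod_cast htle n hn
    exact h1.trans (hF n hn).2.1)
  have hB := hWOM Y (F.image m) hY (by
    intro b hb
    obtain ⟨n, hn, rfl⟩ := Finset.mem_image.1 hb
    refine ⟨hmpos n hn, ?_⟩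
    have h1 : ((m n : ℕ) : ℝ) ≤ (n : ℝ) := by exact_mod_cast hmle n hn
    exact h1.trans (hF n hn).2.1)
  have hB0 : 0 ≤ ∑ b ∈ F.image m, (2 : ℝ) ^ b.primeFactors.card / b.totient :=
    Finset.sum_nonneg fun b _ => by positivity
  have hlog : 0 ≤ Real.log Y := Real.log_nonneg hY
  have hK : 0 ≤ KK Y / q := by
    unfold KK
    positivity
  rw [Finset.sum_congr rfl hf, ← Finset.mul_sum]
  calc 2 * ∑ n ∈ F, G (t n, m n) ≤ 2 * ((∑ a ∈ F.image t, 1 / (a.totient : ℝ)) *
      ∑ b ∈ F.image m, (2 : ℝ) ^ b.primeFactors.card / b.totient) := by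
        exact mul_le_mul_of_nonneg_left hsum (by norm_num)
    _ ≤ 2 * (KK Y / q * (1 + Real.log Y) ^ 4) := by
        exact mul_le_mul_of_nonneg_left (mul_le_mul hA hB hB0 hK) (by norm_num)
    _ = 4 * (1 + Real.log Y) ^ 5 / q := by
        unfold KK
        ring

end Pool.Agent.PHN
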